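import Pool.Agent.H28.BE.Local

set_option autoImplicit false

namespace Pool.Agent.Results.MP_d0d043_co.CompatibleTwoFactor

/-- Exact compatible 2-factor theorem, for every `n` and for arbitrary local labels. Give every edge
of the complete graph on `n ≥ 3` vertices a label at each of its two ends (`κ v w` is the label of the
edge `v w` at `v`; for an edge colouring the two labels agree). If at every vertex every label occurs
at most `⌊n/2⌋ - 1` times, then there is a spanning 2-regular graph `H` (a union of disjoint cycles
through all vertices) in which the two edges at every vertex have different labels there. -/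
theorem result (n : ℕ) (hn : 3 ≤ n) (κ : Fin n → Fin n → ℕ)
    (h : ∀ (v : Fin n) (c : ℕ),
      (Finset.univ.filter (fun w : Fin n => w ≠ v ∧ κ v w = c)).card + 1 ≤ n / 2) :
    ∃ H : SimpleGraph (Fin n), ∀ v, ∃ a b, a ≠ b ∧ κ v a ≠ κ v b ∧
      ∀ w, H.Adj v w ↔ (w = a ∨ w = b) :=
  Pool.H28BE.local_all n hn κ h

end Pool.Agent.Results.MP_d0d043_co.CompatibleTwoFactor
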