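import Pool.Agent.H28.BE.Main

set_option autoImplicit false

open Sym2

namespace Pool.Agent.Results.MP_d0d043_co.HamiltonPath

/-- The path form of the Bollobás–Erdős conjecture, for every `n` and with the exact bound. If in an
edge-coloured complete graph on `n ≥ 3` vertices every vertex has at most `⌊n/2⌋ - 1` edges of each
colour, then there is a properly coloured Hamilton path `f 0, f 1, ..., f (n - 1)`. -/
theorem result (n : ℕ) (hn : 3 ≤ n) (col : Sym2 (Fin n) → ℕ)
    (h : ∀ (v : Fin n) (c : ℕ),
      (Finset.univ.filter (fun w : Fin n => w ≠ v ∧ col s(v, w) = c)).card + 1 ≤ n / 2) :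
    ∃ f : ℕ → Fin n,
      (∀ i j : ℕ, i < n → j < n → f i = f j → i = j) ∧
      ∀ i : ℕ, i + 2 < n → col s(f i, f (i + 1)) ≠ col s(f (i + 1), f (i + 2)) :=
  (Pool.H28BE.main n hn col h).2

end Pool.Agent.Results.MP_d0d043_co.HamiltonPath
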