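import Pool.Agent.H90.BX.Main

set_option autoImplicit false

namespace Pool.Agent.Results.MP_d0d043_co.LargeN

/-- The Bollobás–Erdős conjecture for all large `n`, with the exact bound `⌊n/2⌋ - 1`, for arbitrary
local labels: `κ v w` is the label of the edge `vw` at its end `v`, and the labels at the two ends
of an edge need not be equal (for an edge-colouring `col` take `κ v w = col s(v, w)`). If `n` is
large and every vertex has at most `⌊n/2⌋ - 1` edges with any given label at that vertex, then there
is a Hamilton cycle whose two edges at each vertex have different labels at this vertex. -/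
theorem result : ∃ n0 : ℕ, ∀ n : ℕ, n0 ≤ n → ∀ κ : Fin n → Fin n → ℕ,
    (∀ (v : Fin n) (c : ℕ),
      (Finset.univ.filter (fun w : Fin n => w ≠ v ∧ κ v w = c)).card + 1 ≤ n / 2) →
    ∃ f : ℕ → Fin n,
      (∀ i : ℕ, f (i + n) = f i) ∧
      (∀ i j : ℕ, i < n → j < n → f i = f j → i = j) ∧
      ∀ i : ℕ, κ (f (i + 1)) (f i) ≠ κ (f (i + 1)) (f (i + 2)) := by
  obtain ⟨n0, h⟩ := Pool.H90BX.large_local
  refine ⟨n0, fun n hn κ hκ => ?_⟩
  have h1 := h (Fin n) (by simpa using hn) κ (fun v c => by
    have h2 := hκ v c
    rw [Fintype.card_fin]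
    convert h2)
  simpa using h1

end Pool.Agent.Results.MP_d0d043_co.LargeN
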